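import Pool.Agent.helper6.EV.Spec
import Pool.Agent.helper30.LD.J0

set_option autoImplicit false

namespace Pool.Agent.EV

open N1f72dd46 Filter MeasureTheory Complex Metric Pool.Agent.helper6.LD

theorem NO_norm_ge (t : ℝ) (ρ : ℂ) (h : ρ.re ≤ 1) : 3 ≤ ‖s4 t - ρ‖ := by
  have h1 : (s4 t - ρ).re = 4 - ρ.re := by simp [s4]
  calc (3 : ℝ) ≤ (s4 t - ρ).re := by rw [h1]; linarith
    _ ≤ |(s4 t - ρ).re| := le_abs_self _
    _ ≤ ‖s4 t - ρ‖ := Complex.abs_re_le_norm _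

theorem NO_zero_re {ρ : ℂ} (h : riemannZeta ρ = 0) : ρ.re ≤ 1 := by
  by_contra hcon
  exact riemannZeta_ne_zero_of_one_le_re (by linarith) h

theorem NO_chain (t W k L A B D Bn Tn Zn Ct Cc C2 C3 Q : ℝ)
    (ht : 8 ≤ t) (hk : 1 ≤ k) (hL : 0 ≤ L) (hA : 0 ≤ A) (hB : 0 ≤ B) (hQ : 0 ≤ Q)
    (hCt : 0 < Ct) (hCc : 0 < Cc) (hC2 : 0 < C2) (hC3 : 0 < C3) (hW : 0 ≤ W)
    (h1 : D * W ≤ Zn + Ct * L * A) (h2 : Zn ≤ k * Bn + Cc * k ^ 2 * L * B)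
    (h3 : 2 * Bn / t - C2 * (k + 1) ^ 2 * L * W / t ^ 2 ≤ Tn) (h4 : Tn ≤ C3 * Q) :
    2 * (D / t) * W / k ≤ (C3 + C2 + 2 * Ct + 2 * Cc) *
      (L / t * A + (k + 1) ^ 2 * L / t * B + (k + 1) ^ 2 * L * W / t ^ 2 + Q) := by
  have ht0 : 0 < t := by linarith
  have hk0 : 0 < k := by linarith
  have e1 : 2 * (D / t) * W / k = 2 / (k * t) * (D * W) := by field_simp
  have e2 : D * W ≤ k * Bn + Cc * k ^ 2 * L * B + Ct * L * A := by linarith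
  have e3 : 2 / (k * t) * (D * W) ≤ 2 / (k * t) * (k * Bn + Cc * k ^ 2 * L * B + Ct * L * A) := by
    gcongr
  have e4 : 2 / (k * t) * (k * Bn + Cc * k ^ 2 * L * B + Ct * L * A) =
      2 * Bn / t + 2 * Cc * (k * L / t * B) + 2 * Ct * (L / t * A) / k := by
    field_simp
  have e5 : 2 * Bn / t ≤ C3 * Q + C2 * ((k + 1) ^ 2 * L * W / t ^ 2) := by
    have : C2 * (k + 1) ^ 2 * L * W / t ^ 2 = C2 * ((k + 1) ^ 2 * L * W / t ^ 2) := by ring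
    linarith
  have p1 : 0 ≤ L / t * A := by positivity
  have p2 : 0 ≤ (k + 1) ^ 2 * L / t * B := by positivity
  have p3 : 0 ≤ (k + 1) ^ 2 * L * W / t ^ 2 := by positivity
  have e6 : 2 * Ct * (L / t * A) / k ≤ 2 * Ct * (L / t * A) := by
    apply div_le_self (by positivity) hk
  have e7 : 2 * Cc * (k * L / t * B) ≤ 2 * Cc * ((k + 1) ^ 2 * L / t * B) := by
    have : k ≤ (k + 1) ^ 2 := by nlinarith
    gcongr
  rw [e1]
  have m1 : 0 ≤ (C2 + 2 * Ct + 2 * Cc) * Q := by positivity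
  have m2 : 0 ≤ (C3 + 2 * Ct + 2 * Cc) * ((k + 1) ^ 2 * L * W / t ^ 2) := by positivity
  have m3 : 0 ≤ (C3 + C2 + 2 * Ct) * ((k + 1) ^ 2 * L / t * B) := by positivity
  have m4 : 0 ≤ (C3 + C2 + 2 * Cc) * (L / t * A) := by positivity
  nlinarith [e3, e4, e5, e6, e7, m1, m2, m3, m4]

theorem NO (hCO : CO_stmt) (hUB : UB_stmt) (hTL : TL_stmt) (hTU : TU_stmt) (hMS : MS_stmt)
    (hCN : CN0_stmt) : NO_stmt := by
  classical
  rintro ⟨c, C0, x0, hSD⟩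
  have hc : 0 < c := hSD.1
  obtain ⟨C3, U, hC3, hU, hMS⟩ := hMS c C0 x0 hSD
  obtain ⟨C1, hC1, hUB⟩ := hUB
  obtain ⟨C2, hC2, hTL⟩ := hTL C1 hC1
  obtain ⟨Cc, hCc, hCO⟩ := hCO
  obtain ⟨η1, Ct, hη1, hCt, hTU⟩ := hTU
  set η : ℝ := min η1 (min (1 / 100) (c / 12)) with hη
  have hη0 : 0 < η := by rw [hη]; exact lt_min hη1 (lt_min (by norm_num) (by positivity))
  have hηa : η ≤ η1 := min_le_left _ _
  have hηb : η ≤ 1 / 100 := (min_le_right _ _).trans (min_le_left _ _)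
  have hηc : η ≤ c / 12 := (min_le_right _ _).trans (min_le_right _ _)
  obtain ⟨t1, ht1⟩ := hTU η hη0 hηa
  obtain ⟨t2, ht2⟩ := hCN (C3 + C2 + 2 * Ct + 2 * Cc) U c η (by positivity) hU hc hη0 hηb hηc
  refine ⟨3 * η / 16, max (max t1 t2) 8, by positivity, ?_⟩
  intro ρ0 hρ0 hT
  by_contra hcon
  push Not at hcon
  set t : ℝ := ρ0.im with htdef
  have htt1 : t1 ≤ t := ((le_max_left _ _).trans (le_max_left _ _)).trans hT
  have htt2 : t2 ≤ t := ((le_max_right _ _).trans (le_max_left _ _)).trans hT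
  have ht8 : (8 : ℝ) ≤ t := (le_max_right _ _).trans hT
  have ht0 : 0 < t := by linarith
  have hlog1 : 1 ≤ Real.log t := by
    rw [Real.le_log_iff_exp_le ht0]
    linarith [Real.exp_one_lt_d9]
  have hlog0 : 0 ≤ Real.log t := by linarith
  -- distance of ρ0
  have hd0 : ‖s4 t - ρ0‖ = 4 - ρ0.re := by
    have h1 : s4 t - ρ0 = ((4 - ρ0.re : ℝ) : ℂ) := by
      apply Complex.ext
      · simp [s4]
      · simp [s4, htdef]
    rw [h1, Complex.norm_real, Real.norm_eq_abs, abs_of_nonneg]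
    linarith [NO_zero_re hρ0]
  have hd1 : ‖s4 t - ρ0‖ < 3 * (1 + η / 16) := by rw [hd0]; linarith
  have hfin := zeros_finite (S := closedBall (s4 t) (15 / 4)) isBounded_closedBall
  have hmem : ∀ ρ, ρ ∈ hfin.toFinset ↔ (ρ ∈ closedBall (s4 t) (15 / 4) ∧ riemannZeta ρ = 0) := by
    intro ρ
    rw [Set.Finite.mem_toFinset]
    rfl
  have hρ0S : ρ0 ∈ hfin.toFinset := by
    rw [hmem]
    refine ⟨?_, hρ0⟩
    rw [mem_closedBall, dist_comm, Complex.dist_eq]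
    linarith
  obtain ⟨ρ1, hρ1S, hmin⟩ := Finset.exists_min_image hfin.toFinset (fun ρ => ‖s4 t - ρ‖) ⟨ρ0, hρ0S⟩
  rw [hmem] at hρ1S
  have hρ1 : riemannZeta ρ1 = 0 := hρ1S.2
  have hd1lt : ‖s4 t - ρ1‖ < 3 * (1 + η / 16) := lt_of_le_of_lt (hmin ρ0 hρ0S) hd1
  have hd1ge : 3 ≤ ‖s4 t - ρ1‖ := NO_norm_ge t ρ1 (NO_zero_re hρ1)
  set W : ℝ := ‖(s4 t - ρ1)⁻¹‖ with hW
  have hWeq : W = ‖s4 t - ρ1‖⁻¹ := by rw [hW, norm_inv]
  have hWge : (3 * (1 + η / 16))⁻¹ ≤ W := by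
    rw [hWeq]
    apply inv_anti₀ (by linarith) hd1lt.le
  have hW310 : 3 / 10 ≤ W := by
    refine le_trans ?_ hWge
    rw [show (3 : ℝ) / 10 = (10 / 3)⁻¹ by norm_num]
    apply inv_anti₀ (by positivity)
    linarith
  have hW0 : 0 < W := by linarith
  have hball : ∀ ρ : ℂ, ρ ∈ closedBall (s4 t) (15 / 4) → riemannZeta ρ = 0 →
      ‖(s4 t - ρ)⁻¹‖ ≤ W := by
    intro ρ hρ hz
    rw [hWeq, norm_inv]
    apply inv_anti₀ (by linarith)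
    exact hmin ρ ((hmem ρ).mpr ⟨hρ, hz⟩)
  have hUBt := hUB t W (by linarith) hW310 hball
  set K : ℕ := ⌈Real.log t / η⌉₊ with hK
  have hKge : Real.log t / η ≤ K := Nat.le_ceil _
  have hlogη : Real.log t ≤ Real.log t / η := by
    rw [le_div_iff₀ hη0]
    nlinarith
  obtain ⟨k, hk1, hk2, hk3⟩ := ht1 t htt1 K (hlogη.trans hKge) ρ1 hρ1 (by linarith)
  have hkge : Real.log t / η ≤ k := hKge.trans (by exact_mod_cast hk1)
  have hl100 : 100 ≤ Real.log t / η := by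
    rw [le_div_iff₀ hη0]
    nlinarith
  have hk1' : (1 : ℝ) ≤ k := by linarith
  have hk1n : 1 ≤ k := by exact_mod_cast hk1'
  have hkle : (k : ℝ) ≤ 3 * Real.log t / η := by
    have h1 : (K : ℝ) < Real.log t / η + 1 := Nat.ceil_lt_add_one (by linarith)
    have h2 : (k : ℝ) ≤ 2 * K := by exact_mod_cast hk2
    have h3 : 3 * Real.log t / η = 3 * (Real.log t / η) := by ring
    rw [h3]
    linarith
  have hCOk := hCO t k (by linarith) hk1n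
  have hTLk := hTL t W k ht8 (by linarith) (fun m _ => hUBt m)
  have hMSk := hMS t k ht8
  have hZB : ‖Zs t k‖ ≤ (k : ℝ) * ‖Bp (s4 t) k‖ + Cc * k ^ 2 * Real.log t * ((10 / 3) ^ k)⁻¹ := by
    have h1 : Zs t k = ((k : ℂ) * Bp (s4 t) k + Zs t k) - (k : ℂ) * Bp (s4 t) k := by ring
    calc ‖Zs t k‖ = ‖((k : ℂ) * Bp (s4 t) k + Zs t k) - (k : ℂ) * Bp (s4 t) k‖ := by rw [← h1]
      _ ≤ ‖(k : ℂ) * Bp (s4 t) k + Zs t k‖ + ‖(k : ℂ) * Bp (s4 t) k‖ := norm_sub_le _ _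
      _ ≤ Cc * k ^ 2 * Real.log t * ((10 / 3) ^ k)⁻¹ + (k : ℝ) * ‖Bp (s4 t) k‖ := by
          rw [norm_mul, Complex.norm_natCast]
          linarith [hCOk]
      _ = _ := by ring
  have hchain := NO_chain t (W ^ k) k (Real.log t) (((3 * (1 + η)) ^ k)⁻¹) (((10 / 3) ^ k)⁻¹)
    (t ^ (-(1 / 4) : ℝ)) ‖Bp (s4 t) k‖ ‖Tk t k‖ ‖Zs t k‖ Ct Cc C2 C3
    (((3 + c) ^ k)⁻¹ + (t ^ 2)⁻¹ * (3 ^ k)⁻¹ + U ^ (k + 1) / k.factorial)
    ht8 hk1' hlog0 (by positivity) (by positivity) (by positivity) hCt hCc hC2 hC3 (by positivity)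
    hk3 hZB hTLk hMSk
  have hfinal := ht2 t W k htt2 hkge hkle hWge
  have hpow : t ^ (-(5 / 4) : ℝ) = t ^ (-(1 / 4) : ℝ) / t := by
    rw [show (-(5 / 4) : ℝ) = -(1 / 4) - 1 by norm_num, Real.rpow_sub ht0, Real.rpow_one]
  rw [hpow] at hfinal
  have heq : Real.log t / t * ((3 * (1 + η)) ^ k)⁻¹ + ((k : ℝ) + 1) ^ 2 * Real.log t / t * ((10 / 3) ^ k)⁻¹ +
      ((k : ℝ) + 1) ^ 2 * Real.log t * W ^ k / t ^ 2 +
      (((3 + c) ^ k)⁻¹ + (t ^ 2)⁻¹ * (3 ^ k)⁻¹ + U ^ (k + 1) / k.factorial) =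
      Real.log t / t * ((3 * (1 + η)) ^ k)⁻¹ + ((k : ℝ) + 1) ^ 2 * Real.log t / t * ((10 / 3) ^ k)⁻¹ +
      ((k : ℝ) + 1) ^ 2 * Real.log t * W ^ k / t ^ 2 + ((3 + c) ^ k)⁻¹ + (t ^ 2)⁻¹ * (3 ^ k)⁻¹ +
      U ^ (k + 1) / k.factorial := by ring
  rw [heq] at hchain
  exact absurd hchain (not_le.mpr hfinal)

end Pool.Agent.EV
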