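import Pool.Agent.helper6.EV.Spec
import Pool.Agent.helper30.LD.T4
import Pool.Agent.helper30.LD.J

set_option autoImplicit false

namespace Pool.Agent.EV

open N1f72dd46 Filter MeasureTheory Complex Metric Pool.Agent.helper6.LD

theorem TU_s4 (t : ℝ) : s4 t = ((4 : ℝ) : ℂ) + t * I := rfl

theorem TU_bdd (t : ℝ) : Bornology.IsBounded (closedBall (s4 t) (15 / 4)) := isBounded_closedBall

theorem TU_Zs (t : ℝ) (k : ℕ) : Zs t k = ∑ ρ ∈ (zeros_finite (TU_bdd t)).toFinset,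
    (analyticOrderNatAt riemannZeta ρ : ℂ) * ((s4 t - ρ) ^ k)⁻¹ := by
  rw [Zs, finsum_mem_eq_finite_toFinset_sum _ (zeros_finite (TU_bdd t))]

theorem TU (hLE : LE_stmt) (hLZ : LZ_stmt) : TU_stmt := by
  classical
  obtain ⟨C', hC', hLZ⟩ := hLZ
  obtain ⟨C, hC, hdisc⟩ := zc_disc 4 (by norm_num)
  set d : ℝ := min (1 / 48) (1 / (180 * C')) with hd
  have hd0 : 0 < d := by rw [hd]; apply lt_min <;> positivity
  have hd1 : d ≤ 1 / 48 := min_le_left _ _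
  have hd2 : d ≤ 1 / (180 * C') := min_le_right _ _
  refine ⟨d ^ 2, C, by positivity, hC, ?_⟩
  intro η hη hη1
  have hsq : Real.sqrt η ≤ d := by
    rw [show d = Real.sqrt (d ^ 2) by rw [Real.sqrt_sq hd0.le]]
    exact Real.sqrt_le_sqrt hη1
  have hsq0 : 0 < Real.sqrt η := Real.sqrt_pos.mpr hη
  have hη2 : η ≤ 1 / 4 := by
    have : d ^ 2 ≤ (1 / 48) ^ 2 := by gcongr
    linarith [this, hη1]
  obtain ⟨t1, ht1⟩ := hLZ (6 * Real.sqrt η) (by positivity) (by linarith)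
  refine ⟨max t1 6, ?_⟩
  intro t ht K hK ρ0 hρ0 hn0
  have htt1 : t1 ≤ t := (le_max_left _ _).trans ht
  have ht6 : (6 : ℝ) ≤ t := (le_max_right _ _).trans ht
  have hlog : 0 < Real.log t := Real.log_pos (by linarith)
  have hfin := zeros_finite (TU_bdd t)
  set S : Finset ℂ := hfin.toFinset with hS
  set N : Finset ℂ := S.filter (fun ρ => ‖s4 t - ρ‖ ≤ 3 * (1 + η)) with hN
  have hSmem : ∀ ρ, ρ ∈ S ↔ (ρ ∈ closedBall (s4 t) (15 / 4) ∧ riemannZeta ρ = 0) := by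
    intro ρ
    rw [hS, Set.Finite.mem_toFinset]
    rfl
  have hρ0S : ρ0 ∈ S := by
    rw [hSmem]
    refine ⟨?_, hρ0⟩
    rw [mem_closedBall, dist_comm, Complex.dist_eq]
    refine hn0.trans ?_
    linarith
  have hρ0N : ρ0 ∈ N := by
    rw [hN, Finset.mem_filter]
    exact ⟨hρ0S, hn0⟩
  -- number of near zeros
  have hcard : (N.card : ℝ) ≤ Real.log t / 30 := by
    have hb : Bornology.IsBounded (closedBall (((1 : ℝ) : ℂ) + t * I) (6 * Real.sqrt η)) :=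
      isBounded_closedBall
    have hfin2 := zeros_finite hb
    have hsub : (N : Set ℂ) ⊆ {ρ : ℂ | ρ ∈ closedBall (((1 : ℝ) : ℂ) + t * I) (6 * Real.sqrt η) ∧
        riemannZeta ρ = 0} := by
      intro ρ hρ
      rw [Finset.mem_coe, hN, Finset.mem_filter, hSmem] at hρ
      obtain ⟨⟨_, hz⟩, hle⟩ := hρ
      refine ⟨?_, hz⟩
      have hre : ρ.re ≤ 1 := by
        by_contra hcon
        exact riemannZeta_ne_zero_of_one_le_re (by linarith) hz
      rw [mem_closedBall, Complex.dist_eq]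
      exact hLE t η ρ hη (by linarith) hre hle
    have h1 : N.card ≤ {ρ : ℂ | ρ ∈ closedBall (((1 : ℝ) : ℂ) + t * I) (6 * Real.sqrt η) ∧
        riemannZeta ρ = 0}.ncard := by
      rw [← Set.ncard_coe_finset]
      exact Set.ncard_le_ncard hsub hfin2
    have h2 := ht1 t htt1
    have h3 : (N.card : ℝ) ≤ C' * (6 * Real.sqrt η) * Real.log t := by
      refine le_trans ?_ h2
      exact_mod_cast h1
    refine h3.trans ?_
    have h4 : C' * (6 * Real.sqrt η) ≤ 1 / 30 := by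
      have h5 : Real.sqrt η ≤ 1 / (180 * C') := hsq.trans hd2
      calc C' * (6 * Real.sqrt η) ≤ C' * (6 * (1 / (180 * C'))) := by gcongr
        _ = 1 / 30 := by field_simp; norm_num
    calc C' * (6 * Real.sqrt η) * Real.log t ≤ 1 / 30 * Real.log t := by gcongr
      _ = Real.log t / 30 := by ring
  have hturan := turan N (fun ρ => (analyticOrderNatAt riemannZeta ρ : ℝ)) (by
      intro ρ hρ
      rw [hN, Finset.mem_filter, hSmem] at hρ
      have := order_pos hρ.1.2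
      exact_mod_cast this) (fun ρ => (s4 t - ρ)⁻¹) K (δ := 1) one_pos le_rfl
      (by
        have : (K : ℝ) ≥ Real.log t := hK
        linarith) hρ0N
  obtain ⟨k, hk1, hk2, hk3⟩ := hturan
  refine ⟨k, hk1, ?_, ?_⟩
  · have : (k : ℝ) ≤ 2 * (K : ℝ) := by linarith
    exact_mod_cast this
  -- the tail
  have hpos : (0 : ℝ) < 3 * (1 + η) := by positivity
  have hZ : Zs t k = ∑ ρ ∈ N, (analyticOrderNatAt riemannZeta ρ : ℂ) * ((s4 t - ρ)⁻¹) ^ k +
      ∑ ρ ∈ S.filter (fun ρ => ¬ ‖s4 t - ρ‖ ≤ 3 * (1 + η)),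
        (analyticOrderNatAt riemannZeta ρ : ℂ) * ((s4 t - ρ)⁻¹) ^ k := by
    rw [TU_Zs, hN, Finset.sum_filter_add_sum_filter_not]
    refine Finset.sum_congr rfl ?_
    intro ρ _
    rw [inv_pow]
  have htail : ‖∑ ρ ∈ S.filter (fun ρ => ¬ ‖s4 t - ρ‖ ≤ 3 * (1 + η)),
        (analyticOrderNatAt riemannZeta ρ : ℂ) * ((s4 t - ρ)⁻¹) ^ k‖ ≤
      C * Real.log t * ((3 * (1 + η)) ^ k)⁻¹ := by
    calc ‖∑ ρ ∈ S.filter (fun ρ => ¬ ‖s4 t - ρ‖ ≤ 3 * (1 + η)),
        (analyticOrderNatAt riemannZeta ρ : ℂ) * ((s4 t - ρ)⁻¹) ^ k‖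
        ≤ ∑ ρ ∈ S.filter (fun ρ => ¬ ‖s4 t - ρ‖ ≤ 3 * (1 + η)),
          (analyticOrderNatAt riemannZeta ρ : ℝ) * ((3 * (1 + η)) ^ k)⁻¹ := by
          refine (norm_sum_le _ _).trans ?_
          refine Finset.sum_le_sum ?_
          intro ρ hρ
          rw [Finset.mem_filter] at hρ
          rw [norm_mul, norm_pow, norm_inv, Complex.norm_natCast, inv_pow]
          have hlt : 3 * (1 + η) ≤ ‖s4 t - ρ‖ := (not_le.mp hρ.2).le
          gcongr
      _ ≤ ∑ ρ ∈ S, (analyticOrderNatAt riemannZeta ρ : ℝ) * ((3 * (1 + η)) ^ k)⁻¹ := by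
          refine Finset.sum_le_sum_of_subset_of_nonneg (Finset.filter_subset _ _) ?_
          intro ρ _ _
          positivity
      _ = (zc (closedBall (s4 t) (15 / 4)) : ℝ) * ((3 * (1 + η)) ^ k)⁻¹ := by
          rw [← Finset.sum_mul, h30_zc_eq (TU_bdd t)]
          push_cast
          rfl
      _ ≤ C * Real.log t * ((3 * (1 + η)) ^ k)⁻¹ := by
          have h1 := hdisc t (by linarith)
          have h2 : ((4 : ℝ) - 1 / 4) = 15 / 4 := by norm_num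
          rw [h2] at h1
          have h3 : (zc (closedBall (s4 t) (15 / 4)) : ℝ) ≤ C * Real.log t := h1
          gcongr
  have hmain : t ^ (-(1 / 4) : ℝ) * ‖(s4 t - ρ0)⁻¹‖ ^ k ≤
      ‖∑ ρ ∈ N, (analyticOrderNatAt riemannZeta ρ : ℂ) * ((s4 t - ρ)⁻¹) ^ k‖ := by
    have h1 : t ^ (-(1 / 4) : ℝ) ≤ ((1 : ℝ) / 500) ^ N.card := by
      have ht0 : 0 < t := by linarith
      rw [Real.rpow_def_of_pos ht0]
      have h500 : ((1 : ℝ) / 500) ^ N.card = Real.exp (-(N.card * Real.log 500)) := by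
        rw [Real.exp_neg, Real.exp_nat_mul, Real.exp_log (by norm_num), one_div, inv_pow]
      rw [h500]
      apply Real.exp_le_exp.mpr
      have hl500 : Real.log 500 ≤ 7 := by
        rw [Real.log_le_iff_le_exp (by norm_num)]
        have : (2.7 : ℝ) ≤ Real.exp 1 := by linarith [Real.exp_one_gt_d9]
        calc (500 : ℝ) ≤ 2.7 ^ 7 := by norm_num
          _ ≤ (Real.exp 1) ^ 7 := by gcongr
          _ = Real.exp 7 := by rw [← Real.exp_nat_mul]; norm_num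
      have hl0 : 0 ≤ Real.log 500 := Real.log_nonneg (by norm_num)
      have h2 : (N.card : ℝ) * Real.log 500 ≤ Real.log t / 30 * 7 := by
        apply mul_le_mul hcard hl500 hl0 (by positivity)
      linarith
    have h2 : t ^ (-(1 / 4) : ℝ) * ‖(s4 t - ρ0)⁻¹‖ ^ k ≤
        ((1 : ℝ) / 500) ^ N.card * ‖(s4 t - ρ0)⁻¹‖ ^ k := by gcongr
    refine h2.trans ?_
    refine hk3.trans (le_of_eq ?_)
    simp only [Complex.ofReal_natCast]
  calc t ^ (-(1 / 4) : ℝ) * ‖(s4 t - ρ0)⁻¹‖ ^ k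
      ≤ ‖∑ ρ ∈ N, (analyticOrderNatAt riemannZeta ρ : ℂ) * ((s4 t - ρ)⁻¹) ^ k‖ := hmain
    _ = ‖Zs t k - ∑ ρ ∈ S.filter (fun ρ => ¬ ‖s4 t - ρ‖ ≤ 3 * (1 + η)),
        (analyticOrderNatAt riemannZeta ρ : ℂ) * ((s4 t - ρ)⁻¹) ^ k‖ := by
        rw [hZ, add_sub_cancel_right]
    _ ≤ ‖Zs t k‖ + ‖∑ ρ ∈ S.filter (fun ρ => ¬ ‖s4 t - ρ‖ ≤ 3 * (1 + η)),
        (analyticOrderNatAt riemannZeta ρ : ℂ) * ((s4 t - ρ)⁻¹) ^ k‖ := norm_sub_le _ _
    _ ≤ ‖Zs t k‖ + C * Real.log t * ((3 * (1 + η)) ^ k)⁻¹ := by linarith [htail]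

end Pool.Agent.EV
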